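import Pool.Agent.MP_db5b97_nt.H31.SpecT
import Pool.Agent.MP_db5b97_nt.H19.DENS
import Pool.Agent.MP_db5b97_nt.H72.Z

/-! The auxiliary prime. -/

namespace Pool.Agent.MP_db5b97_nt.H90

open H85 H31 H19 NumberField IsDedekindDomain Polynomial Filter Topology MulAction

namespace QS

theorem root_eq {S : Type} [CommRing S] [IsDomain S] (W : Ideal S) [hW : W.IsPrime] {x y : S}
    {m : ℕ} (h : x ^ m = y ^ m) (hxy : x - y ∈ W) (hm : (m : S) ∉ W) (hy : y ∉ W) : x = y := by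
  by_contra hne
  have h1 := geom_sum₂_mul x y m
  rw [h, sub_self, mul_eq_zero] at h1
  have h2 := congrArg (Ideal.Quotient.mk W) (h1.resolve_right (sub_ne_zero.2 hne))
  have h3 : Ideal.Quotient.mk W x = Ideal.Quotient.mk W y := Ideal.Quotient.eq.2 hxy
  simp only [map_sum, map_mul, map_pow, h3, geom_sum₂_self, map_zero] at h2
  rw [← map_pow, ← map_natCast (Ideal.Quotient.mk W), ← map_mul,
    Ideal.Quotient.eq_zero_iff_mem] at h2
  rcases hW.mem_or_mem h2 with h4 | h4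
  · exact hm h4
  · exact hy (hW.mem_of_pow_mem _ h4)

theorem ord_dvd {p j a m o : ℕ} (hp : p.Prime) (ho : o ≠ 0) (h : o ∣ p ^ (j + a) * m)
    (hj : ¬p ^ j ∣ o) : o ∣ p ^ j * m := by
  obtain ⟨e, o', h1, rfl⟩ := Nat.exists_eq_pow_mul_and_not_dvd ho p hp.ne_one
  have he : e ≤ j := by
    by_contra hlt
    exact hj ((pow_dvd_pow p (not_le.1 hlt).le).mul_right _)
  refine mul_dvd_mul (pow_dvd_pow p he) ?_
  exact (((Nat.Prime.coprime_iff_not_dvd hp).2 h1).symm.pow_right _).dvd_of_dvd_mul_left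
    ((dvd_mul_left o' _).trans h)

section NF

variable {E : Type} [Field E] [NumberField E]

omit [NumberField E] in
theorem not_mem_of_coprime (w : Sp E) {a b : ℕ} (h : a.Coprime b) (ha : (a : 𝓞 E) ∈ w.asIdeal) :
    (b : 𝓞 E) ∉ w.asIdeal := fun hb => by
  obtain ⟨x, y, e⟩ := (Nat.Coprime.cast (R := 𝓞 E) h)
  exact w.isPrime.ne_top ((Ideal.eq_top_iff_one _).2
    (e ▸ add_mem (Ideal.mul_mem_left _ _ ha) (Ideal.mul_mem_left _ _ hb)))

omit [NumberField E] in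
theorem not_mem_of_dvd {l a : ℕ} (w : Pr E l) (h : a ∣ l) : (a : 𝓞 E) ∉ w.1.asIdeal :=
  fun ha => w.2 (Ideal.mem_of_dvd _ (Nat.cast_dvd_cast h) ha)

theorem fin_res (w : Sp E) : Finite (𝓞 E ⧸ w.asIdeal) :=
  Ideal.finiteQuotientOfFreeOfNeBot _ w.ne_bot

theorem pow_norm (w : Sp E) (x : 𝓞 E) : x ^ Ideal.absNorm w.asIdeal - x ∈ w.asIdeal := by
  have := fin_res w
  have := Fintype.ofFinite (𝓞 E ⧸ w.asIdeal)
  have := w.isMaximal
  let _ := Ideal.Quotient.field w.asIdeal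
  rw [← Ideal.Quotient.eq, map_pow, Ideal.absNorm_apply, Submodule.cardQuot_apply,
    Nat.card_eq_fintype_card]
  exact FiniteField.pow_card _

theorem norm_le (w : Sp E) {q : ℕ} (hq : 1 < q) (h : ∀ x : 𝓞 E, x ^ q - x ∈ w.asIdeal) :
    Ideal.absNorm w.asIdeal ≤ q := by
  have := fin_res w
  have := Fintype.ofFinite (𝓞 E ⧸ w.asIdeal)
  have := w.isMaximal
  let _ := Ideal.Quotient.field w.asIdeal
  rw [Ideal.absNorm_apply, Submodule.cardQuot_apply, Nat.card_eq_fintype_card,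
    ← Finset.card_univ,
    ← FiniteField.X_pow_card_sub_X_natDegree_eq (𝓞 E ⧸ w.asIdeal) hq]
  refine card_le_degree_of_subset_roots fun x _ => ?_
  obtain ⟨x, rfl⟩ := Ideal.Quotient.mk_surjective x
  rw [mem_roots (FiniteField.X_pow_card_sub_X_ne_zero _ hq), IsRoot, eval_sub, eval_pow, eval_X,
    ← map_pow, ← map_sub, Ideal.Quotient.eq_zero_iff_mem]
  exact h x

theorem unram (w : Sp E) {q : ℕ} (hq : q.Prime) (hw : (q : 𝓞 E) ∈ w.asIdeal)
    (hd : ¬q ∣ (discr E).natAbs) :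
    haveI := w.isPrime; Algebra.IsUnramifiedAt ℤ w.asIdeal :=
  (not_dvd_discr_iff_forall_mem E (𝓞 E) (Nat.prime_iff_prime_int.1 hq)).1
    (fun h => hd (Int.natCast_dvd.1 h)) _ w.isPrime (by exact_mod_cast hw)

theorem unq {q : ℕ} (hq : q.Prime) (hd : ¬q ∣ (discr E).natAbs) : Unq E q := by
  intro w h2
  have := w.1.isPrime
  have := unram w.1 hq w.2 hd
  have hp := Nat.prime_iff_prime_int.1 hq
  have : w.1.asIdeal.LiesOver (Ideal.span {(q : ℤ)}) :=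
    (Ideal.liesOver_span_iff w.1.isPrime.ne_top hp).2 (by exact_mod_cast w.2)
  have h1 := Ideal.ramificationIdx_eq_one w.1.asIdeal ℤ
  rw [← Ideal.ramificationIdx'_eq_ramificationIdx (Ideal.span {(q : ℤ)}) _
    (by simpa using hq.ne_zero)] at h1
  refine (Ideal.ramificationIdx'_ne_one_iff ?_).2 ?_ h1
  · rw [Ideal.map_span, Set.image_singleton, Ideal.span_singleton_le_iff_mem, map_natCast]
    exact w.2
  · rw [Ideal.map_span, Set.image_singleton, Ideal.span_singleton_le_iff_mem, map_natCast]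
    exact h2

theorem ram_one (k : Type) [Field k] [NumberField k] [Algebra k E] (w : Sp E) {q : ℕ}
    (hq : q.Prime) (hw : (q : 𝓞 E) ∈ w.asIdeal) (hd : ¬q ∣ (discr E).natAbs) :
    w.asIdeal.ramificationIdx (𝓞 k) = 1 := by
  have := w.isPrime
  have := unram w hq hw hd
  have := Algebra.IsUnramifiedAt.of_restrictScalars (A := 𝓞 k) ℤ w.asIdeal
  exact Ideal.ramificationIdx_eq_one _ _

theorem eq_span (h1 : Module.finrank ℚ E = 1) (v : Sp E) {q : ℕ} (hq : q.Prime)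
    (hv : (q : 𝓞 E) ∈ v.asIdeal) :
    v.asIdeal = Ideal.span {(q : 𝓞 E)} ∧ Ideal.absNorm v.asIdeal = q := by
  have e : Ideal.absNorm (Ideal.span {(q : 𝓞 E)}) = q := by
    rw [Ideal.absNorm_span_natCast, RingOfIntegers.rank, h1, pow_one]
  have hp : (Ideal.span {(q : 𝓞 E)}).IsPrime :=
    Ideal.isPrime_of_irreducible_absNorm (by rw [e]; exact hq)
  have hm := hp.isMaximal (by simpa using hq.ne_zero)
  have := (hm.eq_of_le v.isPrime.ne_top ((Ideal.span_singleton_le_iff_mem _).2 hv)).symm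
  exact ⟨this, this ▸ e⟩

theorem norm_prime (h1 : Module.finrank ℚ E = 1) (v : Sp E) : (Ideal.absNorm v.asIdeal).Prime := by
  have := v.isMaximal
  obtain ⟨q, n, -, h, hq, -⟩ := Ideal.exists_prime_and_absNorm_eq_pow v.asIdeal
  rw [(eq_span h1 v hq h).2]
  exact hq

variable (k : Type) [Field k] [NumberField k] [Algebra k E] {l : ℕ}

/-- primes that split completely contribute with the degree as multiplicity -/
theorem split_all (A : Set (Pr k l))
    (hA : ∀ w : Pr E l, w.und k ∈ A → w.1.asIdeal.ramificationIdx (𝓞 k) = 1 ∧ fd k w = 1)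
    {s : ℝ} (hs : 1 < s) :
    Module.finrank k E * PS A s ≤ PS (Set.univ : Set (Pr E l)) s := by
  classical
  refine mul_tsum_le (Pr.und k) _ _ _ (wt_nonneg _ _) (wt_nonneg _ _) (sum_wt H72.rowZ _ hs)
    fun v => ?_
  by_cases hv : v ∈ A
  · have := v.1.isPrime
    have : Fintype (v.1.asIdeal.primesOver (𝓞 E)) :=
      (Algebra.QuasiFinite.finite_primesOver v.1.asIdeal).fintype
    have e := Ideal.sum_ramification_inertia_eq_finrank v.1.asIdeal (𝓞 E)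
    rw [← IsFractionRing.finrank_eq (𝓞 k) k (𝓞 E) E] at e
    have hW : ∀ Q : v.1.asIdeal.primesOver (𝓞 E), ∃ w : Pr E l, w.1.asIdeal = Q.1 ∧ w.und k = v :=
      fun ⟨Q, hQ, hQ'⟩ => by
        have hb : Q ≠ ⊥ := Ideal.ne_bot_of_liesOver_of_ne_bot v.1.ne_bot Q
        refine ⟨⟨⟨Q, hQ, hb⟩, fun h => v.2 ?_⟩, rfl,
          Subtype.ext (HeightOneSpectrum.ext hQ'.over.symm)⟩
        rw [hQ'.over, Ideal.mem_comap, map_natCast]
        exact h
    choose W h1 h2 using hW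
    have hi : Function.Injective W := fun Q Q' h => Subtype.ext (by rw [← h1, ← h1, h])
    refine ⟨Finset.univ.image W, fun x hx => ?_, ?_⟩
    · obtain ⟨Q, -, rfl⟩ := Finset.mem_image.1 hx
      exact h2 Q
    · have hc : Module.finrank k E = Fintype.card (v.1.asIdeal.primesOver (𝓞 E)) := by
        rw [← e, Finset.sum_congr rfl (g := fun _ => 1) fun Q _ => ?_]
        · simp
        · have := hA (W Q) (by rw [h2]; exact hv)
          rw [fd, h1] at this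
          rw [this.1, this.2]
      rw [Finset.sum_image hi.injOn, Finset.sum_congr rfl (g := fun _ => wt A s v) fun Q _ => ?_]
      · simp [hc]
      · rw [wt_mem (Set.mem_univ _), nz_of_fd k (hA (W Q) (by rw [h2]; exact hv)).2, h2, wt_mem hv]
  · exact ⟨∅, by simp, by simp [wt_not hv]⟩

end NF

theorem PS_union {k : Type} [Field k] [NumberField k] {l : ℕ} (P : Finset ℕ)
    (B : ℕ → Set (Pr k l)) {s : ℝ} (hs : 1 < s) :
    ∀ T : Set (Pr k l), (∀ v ∈ T, ∃ b ∈ P, v ∈ B b) → PS T s ≤ ∑ b ∈ P, PS (B b) s := by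
  induction P using Finset.induction_on with
  | empty =>
    intro T hT
    have : ∀ v, wt T s v = 0 := fun v => wt_not (fun h => by simpa using hT v h) s
    simp [PS, this]
  | insert a P ha ih =>
    intro T hT
    rw [Finset.sum_insert ha]
    refine (PS_le_add H72.rowZ (B := B a) (C := T \ B a) (fun v hv => ?_) hs).trans
      (add_le_add le_rfl (ih _ fun v hv => ?_))
    · by_cases h : v ∈ B a
      · exact Or.inl h
      · exact Or.inr ⟨hv, h⟩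
    · obtain ⟨b, h1, h2⟩ := hT v hv.1
      rcases Finset.mem_insert.1 h1 with rfl | h1
      · exact absurd h2 hv.2
      · exact ⟨b, h1, h2⟩

theorem avoid {k : Type} [Field k] [NumberField k] {l : ℕ} (P : Finset ℕ) (T : Set (Pr k l))
    (B : ℕ → Set (Pr k l)) (d D : ℕ) (hD : 2 * (P.card + 1) * d ≤ D)
    (hT : ∃ C : ℝ, ∀ᶠ s in 𝓝[>] (1 : ℝ), Real.log (1 / (s - 1)) - C ≤ d * PS T s)
    (hB : ∀ b ∈ P, ∃ C : ℝ, ∀ᶠ s in 𝓝[>] (1 : ℝ), D * PS (B b) s ≤ Real.log (1 / (s - 1)) + C) :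
    ∃ v ∈ T, ∀ b ∈ P, v ∉ B b := by
  by_contra! h
  obtain ⟨C, hC⟩ := hT
  choose! C' hC' using hB
  refine not_bdd ((∑ b ∈ P, C' b + 2 * (P.card + 1) * C) / (P.card + 2)) ?_
  filter_upwards [hC, (Finset.eventually_all P).2 hC', self_mem_nhdsWithin] with s g1 g2
    (hs : 1 < s)
  have a1 := PS_union P B hs T h
  have a2 : D * PS T s ≤ P.card * Real.log (1 / (s - 1)) + ∑ b ∈ P, C' b := by
    calc D * PS T s ≤ D * ∑ b ∈ P, PS (B b) s := mul_le_mul_of_nonneg_left a1 (Nat.cast_nonneg _)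
      _ = ∑ b ∈ P, D * PS (B b) s := Finset.mul_sum _ _ _
      _ ≤ ∑ b ∈ P, (Real.log (1 / (s - 1)) + C' b) := Finset.sum_le_sum g2
      _ = _ := by rw [Finset.sum_add_distrib, Finset.sum_const, nsmul_eq_mul]
  have a3 : (2 * (P.card + 1) * d : ℝ) ≤ D := by exact_mod_cast hD
  have a4 := mul_le_mul_of_nonneg_right a3 (PS_nonneg T s)
  have a5 := mul_le_mul_of_nonneg_left g1 (by positivity : (0 : ℝ) ≤ 2 * (P.card + 1))
  rw [le_div_iff₀ (by positivity)]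
  linarith

/-! ### Fixed fields -/

instance factTop (S : Subgroup Ga) : Fact (S ≤ ⊤) := ⟨le_top⟩

instance opeTop : Ope (⊤ : Subgroup Ga) := ⟨isOpen_univ⟩

theorem rank_top : Module.finrank ℚ (Fx ⊤) = 1 := by rw [finrank_fx, Subgroup.index_top]

theorem rank_rel (S : Subgroup Ga) [Ope S] : Module.finrank (Fx ⊤) (Fx S) = S.index := by
  rw [finrank_fx_rel, Subgroup.relIndex_top_right]

theorem inj (S : Subgroup Ga) : Function.Injective (algebraMap (𝓞 (Fx S)) Om) :=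
  (algebraMap (Fx S) Om).injective.comp RingOfIntegers.coe_injective

theorem exists_int (S : Subgroup Ga) {x : Om} (hx : ∀ s ∈ S, s x = x) (hi : IsIntegral ℤ x) :
    ∃ y : 𝓞 (Fx S), algebraMap _ Om y = x :=
  ⟨⟨⟨x, mem_fx.2 hx⟩, (isIntegral_algebraMap_iff (B := Om) Subtype.val_injective).1 hi⟩, rfl⟩

theorem fix_root {n : ℕ} (hn : n ≠ 0) {ζ ξ : Om} (hζ : IsPrimitiveRoot ζ n) (hξ : ξ ^ n = 1)
    {t : Ga} (ht : t ζ = ζ) : t ξ = ξ := by
  have : NeZero n := ⟨hn⟩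
  obtain ⟨i, -, rfl⟩ := hζ.eq_pow_of_pow_eq_one hξ
  rw [map_pow, ht]

theorem conj_mem {x : Om} {s t : Ga} (h : t (s⁻¹ x) = s⁻¹ x) : s * t * s⁻¹ ∈ stabilizer Ga x := by
  show s (t (s⁻¹ x)) = x
  rw [h]
  exact s.apply_symm_apply x

theorem nrm_zeta {n : ℕ} (hn : n ≠ 0) {ζ : Om} (hζ : IsPrimitiveRoot ζ n) (s : Ga) {t : Ga}
    (ht : t ∈ stabilizer Ga ζ) : s * t * s⁻¹ ∈ stabilizer Ga ζ :=
  conj_mem (fix_root hn hζ (by rw [← map_pow, hζ.pow_eq_one, map_one]) ht)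

theorem nrm_alpha {n m b : ℕ} (hn : n ≠ 0) (hm : m ∣ n) (hb : b ≠ 0) {ζ α : Om}
    (hζ : IsPrimitiveRoot ζ n) (hα : α ^ m = b) :
    Nrm ⊤ (stabilizer Ga ζ ⊓ stabilizer Ga α) := by
  refine ⟨fun s _ t ht => ⟨nrm_zeta hn hζ s ht.1, conj_mem ?_⟩⟩
  obtain ⟨c, rfl⟩ := hm
  have hb' : (b : Om) ≠ 0 := Nat.cast_ne_zero.2 hb
  have h0 : α ≠ 0 := by
    rintro rfl
    rw [zero_pow (left_ne_zero_of_mul hn)] at hα
    exact hb' hα.symm
  have h1 : (s⁻¹ α / α) ^ (m * c) = 1 := by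
    rw [pow_mul, div_pow, ← map_pow, hα, map_natCast, div_self hb', one_pow]
  have h2 := fix_root hn hζ h1 ht.1
  have h3 : t α = α := ht.2
  rw [map_div₀, h3] at h2
  exact (div_left_inj' h0).1 h2

/-- a prime of degree one fixes the roots of unity -/
theorem dvd_of_norm {S : Subgroup Ga} [Ope S] {n : ℕ} (hn : n ≠ 0) {ζ : Om}
    (hζ : IsPrimitiveRoot ζ n) (hS : S ≤ stabilizer Ga ζ) (w : Sp (Fx S))
    (hw : (n : 𝓞 (Fx S)) ∉ w.asIdeal) : n ∣ Ideal.absNorm w.asIdeal - 1 := by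
  obtain ⟨z, hz⟩ := exists_int S (fun s hs => hS hs) (hζ.isIntegral (Nat.pos_of_ne_zero hn))
  have := w.isPrime
  have h1 : z ^ n = 1 := inj S (by rw [map_pow, hz, hζ.pow_eq_one, map_one])
  have h2 : z ∉ w.asIdeal := fun h => w.isPrime.ne_top ((Ideal.eq_top_iff_one _).2
    (h1 ▸ Ideal.pow_mem_of_mem _ h _ (Nat.pos_of_ne_zero hn)))
  have h3 := root_eq w.asIdeal (m := n) (by rw [← pow_mul, mul_comm, pow_mul, h1, one_pow])
    (pow_norm w z) hw h2
  have h4 := congrArg (algebraMap _ Om) h3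
  have h5 : Ideal.absNorm w.asIdeal ≠ 0 := fun h => w.ne_bot (Ideal.absNorm_eq_zero_iff.1 h)
  obtain ⟨m, hm⟩ := Nat.exists_eq_succ_of_ne_zero h5
  rw [map_pow, hz, hm, pow_succ, mul_eq_right₀ (hζ.ne_zero hn)] at h4
  rw [hm]
  exact hζ.dvd_of_pow_eq_one _ h4

/-- the Frobenius element is trivial -/
theorem fd_one {n m b c l : ℕ} (hn : n ≠ 0) (hm : m ∣ n) (hb : b ≠ 0) {ζ α : Om}
    (hζ : IsPrimitiveRoot ζ n) (hα : α ^ m = b)
    (W : Pr (Fx (stabilizer Ga ζ ⊓ stabilizer Ga α)) l)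
    (hnW : (n : 𝓞 _) ∉ W.1.asIdeal) (hbW : (b : 𝓞 _) ∉ W.1.asIdeal)
    (hq : Ideal.absNorm (W.und (Fx ⊤)).1.asIdeal = m * c + 1) (hd : n ∣ m * c) (hc : 0 < m * c)
    (h1 : (b : 𝓞 _) ^ c - 1 ∈ W.1.asIdeal) : fd (Fx ⊤) W = 1 := by
  have := nrm_alpha hn hm hb hζ hα
  have := W.1.isPrime
  have := fin_res W.1
  have hm0 : m ≠ 0 := left_ne_zero_of_mul hc.ne'
  obtain ⟨z, hz⟩ := exists_int (stabilizer Ga ζ ⊓ stabilizer Ga α) (fun s hs => hs.1)
    (hζ.isIntegral (Nat.pos_of_ne_zero hn))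
  obtain ⟨y, hy⟩ := exists_int (stabilizer Ga ζ ⊓ stabilizer Ga α) (fun s hs => hs.2)
    (IsIntegral.of_pow (Nat.pos_of_ne_zero hm0)
      (by rw [hα]; exact_mod_cast isIntegral_algebraMap (R := ℤ) (A := Om) (x := (b : ℤ))))
  have z1 : z ^ n = 1 := inj _ (by rw [map_pow, hz, hζ.pow_eq_one, map_one])
  have y1 : y ^ m = b := inj _ (by rw [map_pow, hy, hα, map_natCast])
  have z2 : z ∉ W.1.asIdeal := fun h => W.1.isPrime.ne_top ((Ideal.eq_top_iff_one _).2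
    (z1 ▸ Ideal.pow_mem_of_mem _ h _ (Nat.pos_of_ne_zero hn)))
  have y2 : y ∉ W.1.asIdeal := fun h =>
    hbW (y1 ▸ Ideal.pow_mem_of_mem _ h _ (Nat.pos_of_ne_zero hm0))
  have hmW : (m : 𝓞 _) ∉ W.1.asIdeal := fun h =>
    hnW (Ideal.mem_of_dvd _ (Nat.cast_dvd_cast hm) h)
  obtain ⟨φ, hφ⟩ := IsArithFrobAt.exists_of_isInvariant (𝓞 (Fx ⊤))
    (Qt ⊤ (stabilizer Ga ζ ⊓ stabilizer Ga α)) W.1.asIdeal
  have hφ' : ∀ x, φ • x - x ^ (m * c + 1) ∈ W.1.asIdeal := fun x => by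
    rw [← hq]
    exact hφ x
  have z3 : φ • z = z := by
    refine root_eq W.1.asIdeal (m := n) (by rw [← smul_pow', z1, smul_one]) ?_ hnW z2
    obtain ⟨e, he⟩ := hd
    have := hφ' z
    rwa [pow_succ, he, pow_mul, z1, one_pow, one_mul] at this
  have y3 : φ • y = y := by
    refine root_eq W.1.asIdeal (m := m) (by rw [← smul_pow', y1, smul_natCast]) ?_ hmW y2
    have h2 := add_mem (hφ' y) (Ideal.mul_mem_right y _ h1)
    rw [pow_succ, pow_mul, y1] at h2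
    have e : ∀ u : 𝓞 (Fx (stabilizer Ga ζ ⊓ stabilizer Ga α)),
        u - (b : 𝓞 _) ^ c * y + ((b : 𝓞 _) ^ c - 1) * y = u - y := fun u => by ring
    rwa [e] at h2
  have h3 : φ = 1 := by
    induction φ using QuotientGroup.induction_on with
    | H s =>
      refine (QuotientGroup.eq_one_iff s).2 ⟨?_, ?_⟩
      · have h7 : (s : Ga) (algebraMap _ Om z) = algebraMap _ Om z := congrArg (algebraMap _ Om) z3
        show (s : Ga) ζ = ζ
        exact (congrArg (s : Ga) hz).symm.trans (h7.trans hz)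
      · have h7 : (s : Ga) (algebraMap _ Om y) = algebraMap _ Om y := congrArg (algebraMap _ Om) y3
        show (s : Ga) α = α
        exact (congrArg (s : Ga) hy).symm.trans (h7.trans hy)
  have h4 := norm_le W.1 (q := m * c + 1) (by omega) fun x => by
    have := neg_mem (hφ' x)
    rwa [h3, one_smul, neg_sub] at this
  rw [← norm_pow (Fx ⊤) W, hq] at h4
  have h5 := fd_pos (Fx ⊤) W
  have h6 := (Nat.pow_le_pow_iff_right (a := m * c + 1) (by omega)).1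
    (h4.trans_eq (pow_one _).symm)
  omega

/-- a prime below a prime of degree one of a normal extension splits -/
theorem spl {S N : Subgroup Ga} [Ope S] [Ope N] [Nrm ⊤ S] (hS : S ≤ N) {l : ℕ}
    (hl : (discr (Fx N)).natAbs ∣ l) (w0 : Pr (Fx S) l) (h0 : fd (Fx ⊤) w0 = 1) :
    Spl (Fx N) (Ideal.absNorm (w0.und (Fx ⊤)).1.asIdeal) := by
  have : Fact (S ≤ N) := ⟨hS⟩
  have hq := norm_prime rank_top (w0.und (Fx ⊤)).1
  have hv := Ideal.absNorm_mem (w0.und (Fx ⊤)).1.asIdeal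
  generalize Ideal.absNorm (w0.und (Fx ⊤)).1.asIdeal = q at hq hv
  have hql : ¬q ∣ l := fun h => not_mem_of_dvd _ h hv
  refine ⟨unq hq fun h => hql (h.trans hl), fun w => ?_⟩
  let w' : Pr (Fx N) l := ⟨w.1, not_mem_of_coprime w.1 (hq.coprime_iff_not_dvd.2 hql) w.2⟩
  obtain ⟨W, hW⟩ := exists_over (Fx N) (E := Fx S) w'
  have h1 : (q : 𝓞 (Fx ⊤)) ∈ (W.und (Fx ⊤)).1.asIdeal := by
    rw [← und_und (Fx ⊤) (Fx N) W, hW]
    exact (Pl.und (Fx ⊤) w).2
  have h2 : w0.und (Fx ⊤) = W.und (Fx ⊤) := Subtype.ext (HeightOneSpectrum.ext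
    ((eq_span rank_top _ hq hv).1.trans (eq_span rank_top _ hq h1).1.symm))
  obtain ⟨g, hg⟩ := exists_smul (Fx ⊤) (G := Qt ⊤ S) h2
  have h3 : fd (Fx ⊤) W = 1 := by
    rw [← hg, ← h0]
    exact Ideal.inertiaDeg_smul _ _ _
  have h4 := norm_pow (Fx ⊤) W
  rw [h3, pow_one, (eq_span rank_top _ hq h1).2, ← norm_pow (Fx N) W, hW] at h4
  exact (hq.pow_eq_iff.1 h4.symm).1

end QS

open QS in
theorem rowQS : RowKUM → RowMS → RowQS := by
  intro hK _ p l j N ho hp hp2 hl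
  have : N.FiniteIndex := ⟨index_ne⟩
  have : Ope N.normalCore := ⟨Subgroup.isOpen_of_isClosed_of_finiteIndex _
    (N.normalCore_isClosed (N.isClosed_of_isOpen ho.out))⟩
  obtain ⟨a, ha⟩ : ∃ a, 2 * (l.primeFactors.card + 1) * N.normalCore.index ≤ p ^ a :=
    ⟨_, (Nat.lt_pow_self hp.one_lt).le⟩
  have hn : p ^ (j + a) ≠ 0 := pow_ne_zero _ hp.ne_zero
  have : NeZero (p ^ (j + a)) := ⟨hn⟩
  obtain ⟨ζ, hζ⟩ := HasEnoughRootsOfUnity.exists_primitiveRoot Om (p ^ (j + a))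
  choose α hα using fun b : ℕ => IsAlgClosed.exists_pow_nat_eq (b : Om) (pow_pos hp.pos a)
  have : Nrm ⊤ (N.normalCore ⊓ stabilizer Ga ζ) :=
    ⟨fun s _ t ht => ⟨N.normalCore_normal.conj_mem t ht.1 s, nrm_zeta hn hζ s ht.2⟩⟩
  obtain ⟨l', hl', d1, d2, d3, d4⟩ : ∃ l' : ℕ, l' ≠ 0 ∧ p ∣ l' ∧ l ∣ l' ∧
      (discr (Fx N)).natAbs ∣ l' ∧ ∀ b ∈ l.primeFactors,
        (discr (Fx (stabilizer Ga ζ ⊓ stabilizer Ga (α b)))).natAbs ∣ l' := by
    refine ⟨p * l * (discr (Fx N)).natAbs * ∏ b ∈ l.primeFactors,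
      (discr (Fx (stabilizer Ga ζ ⊓ stabilizer Ga (α b)))).natAbs, ?_, ?_, ?_, ?_, fun b hb => ?_⟩
    · exact mul_ne_zero (mul_ne_zero (mul_ne_zero hp.ne_zero hl)
        (Int.natAbs_ne_zero.2 (discr_ne_zero _)))
        (Finset.prod_ne_zero_iff.2 fun b _ => Int.natAbs_ne_zero.2 (discr_ne_zero _))
    · exact ((dvd_mul_right p l).mul_right _).mul_right _
    · exact ((dvd_mul_left l p).mul_right _).mul_right _
    · exact (dvd_mul_left _ _).mul_right _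
    · exact (Finset.dvd_prod_of_mem _ hb).mul_left _
  obtain ⟨v, ⟨w0, h0, rfl⟩, hv⟩ := avoid (k := Fx ⊤) (l := l') l.primeFactors
    {v | ∃ w : Pr (Fx (N.normalCore ⊓ stabilizer Ga ζ)) l', fd (Fx ⊤) w = 1 ∧ w.und (Fx ⊤) = v}
    (fun b => {v | ∀ W : Pr (Fx (stabilizer Ga ζ ⊓ stabilizer Ga (α b))) l', W.und (Fx ⊤) = v →
      W.1.asIdeal.ramificationIdx (𝓞 (Fx ⊤)) = 1 ∧ fd (Fx ⊤) W = 1})
    (Module.finrank (Fx ⊤) (Fx (N.normalCore ⊓ stabilizer Ga ζ))) (p ^ a * (stabilizer Ga ζ).index)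
    (by
      rw [rank_rel]
      refine (Nat.mul_le_mul_left _ Subgroup.index_inf_le).trans ?_
      rw [← mul_assoc]
      exact Nat.mul_le_mul_right _ ha)
    (low (Fx ⊤) _ H72.rowZ hl' _ fun w hw => ⟨w, hw, rfl⟩)
    (fun b hb => by
      obtain ⟨C, hC⟩ := PS_univ (Fx (stabilizer Ga ζ ⊓ stabilizer Ga (α b))) l' H72.rowZ hl'
      refine ⟨C, ?_⟩
      filter_upwards [hC, self_mem_nhdsWithin] with s h (hs : 1 < s)
      refine le_trans ?_ h.2
      rw [← hK p a (j + a) b ζ (α b) hp hp2 (Nat.prime_of_mem_primeFactors hb) (by omega) hζ (hα b),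
        ← Subgroup.inf_relIndex_left, Subgroup.relIndex_mul_index inf_le_left, ← rank_rel]
      refine split_all (Fx ⊤) _ (fun w hw => ?_) hs
      exact hw w rfl)
  have hs := spl (inf_le_left.trans N.normalCore_le) d3 w0 h0
  have hq := norm_prime rank_top (w0.und (Fx ⊤)).1
  have hm := Ideal.absNorm_mem (w0.und (Fx ⊤)).1.asIdeal
  have hpW : ∀ {E : Type} [Field E] [NumberField E] (W : Pr E l'),
      ((p ^ (j + a) : ℕ) : 𝓞 E) ∉ W.1.asIdeal := fun W h =>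
    not_mem_of_dvd W d1 (W.1.isPrime.mem_of_pow_mem _ (by rwa [Nat.cast_pow] at h))
  have hd := dvd_of_norm hn hζ inf_le_right w0.1 (hpW w0)
  rw [← norm_pow (Fx ⊤) w0, h0, pow_one] at hd
  generalize hqe : Ideal.absNorm (w0.und (Fx ⊤)).1.asIdeal = q at hs hq hm hd
  have hql : ¬q ∣ l' := fun h => not_mem_of_dvd _ h hm
  refine ⟨q, hq, hq.coprime_iff_not_dvd.2 fun h => hql (h.trans d2), hs, fun b hb hbl => ?_⟩
  by_contra hj
  have hbP : b ∈ l.primeFactors := Nat.mem_primeFactors.2 ⟨hb, hbl, hl⟩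
  refine hv b hbP fun W hW => ?_
  have hqW : (q : 𝓞 _) ∈ W.1.asIdeal := by
    rw [← hW] at hm
    simpa [Pr.und, und, Ideal.mem_comap] using hm
  refine ⟨ram_one _ W.1 hq hqW fun h => hql (h.trans (d4 b hbP)), ?_⟩
  obtain ⟨m, hm'⟩ := hd
  have : Fact q.Prime := ⟨hq⟩
  have hb0 : (b : ZMod q) ≠ 0 := fun h =>
    hql (((ZMod.natCast_eq_zero_iff b q).1 h).trans (hbl.trans d2))
  have h1 : orderOf (b : ZMod q) ∣ p ^ (j + a) * m := hm' ▸ ZMod.orderOf_dvd_card_sub_one hb0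
  have hq1 := hq.two_le
  have h2 : orderOf (b : ZMod q) ≠ 0 := fun h => by
    rw [h, zero_dvd_iff] at h1
    omega
  have h3 := orderOf_dvd_iff_pow_eq_one.1 (ord_dvd hp h2 h1 hj)
  have h4 : p ^ a * (p ^ j * m) = p ^ (j + a) * m := by ring
  refine fd_one (c := p ^ j * m) hn (pow_dvd_pow p (by omega)) hb.ne_zero hζ (hα b) W (hpW W)
    (not_mem_of_dvd W (hbl.trans d2)) (by rw [hW, hqe, h4]; omega) (h4 ▸ dvd_mul_right _ _)
    (by omega) ?_
  have h5 : (q : ℤ) ∣ (b : ℤ) ^ (p ^ j * m) - 1 :=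
    (ZMod.intCast_zmod_eq_zero_iff_dvd _ q).1 (by push_cast; rw [h3, sub_self])
  have h6 := Ideal.mem_of_dvd W.1.asIdeal (map_dvd (Int.castRingHom (𝓞 _)) h5) (by simpa using hqW)
  simpa using h6

end Pool.Agent.MP_db5b97_nt.H90
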